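import Pool.Agent.Helper24_ML.TL2
import Pool.Agent.Helper98_BT.Mov

/-!
# Squad ML, stage 2, row TL1: any number of punctures (lantern relation)
-/

open scoped BigOperators

set_option linter.unusedSectionVars false

noncomputable section

namespace Pool.Agent.PP.ML.H98

open Pool.Agent.PP.ML Pool.Agent.Helper71_ML Pool.Agent.PP.ML.H71 Pool.Agent.H98BT
  Pool.Agent.PP.ML.H24

section

variable {G X : Type} [Group G] [Finite G] [MulAction G X] {R : Subgroup G} {g : G}
  {Cs : List (Set G)}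

theorem mem_norm {U : Subgroup G} {x : G} :
    x ∈ Subgroup.normalizer (U : Set G) ↔ ∀ u ∈ U, x * u * x⁻¹ ∈ U := by
  constructor
  · intro h u hu
    exact (Subgroup.mem_normalizer_iff.1 h u).1 hu
  · intro h
    exact Subgroup.mem_normalizer_fintype h

theorem inOmL_iff {w : X × G × G × List G} :
    InOmL R g Cs w ↔ Mem (MulAction.stabilizer G w.1) w ∧
      List.Forall₂ (fun z K => z ∈ K) w.2.2.2 Cs ∧ Rel g w ∧
      ∀ U : Subgroup G, U ≤ R → U ≤ MulAction.stabilizer G w.1 →
        Mem (Subgroup.normalizer (U : Set G)) w → U = ⊥ := by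
  constructor
  · rintro ⟨h1, h2, h3, h4, h5, h6⟩
    refine ⟨⟨h1, h2, h3⟩, h4, h5, ?_⟩
    rintro U hU hf ⟨hx, hy, hl⟩
    exact h6 U hU (fun u hu => hf hu) (mem_norm.1 hx) (mem_norm.1 hy)
      (fun z hz => mem_norm.1 (hl z hz))
  · rintro ⟨⟨h1, h2, h3⟩, h4, h5, h6⟩
    refine ⟨h1, h2, h3, h4, h5, ?_⟩
    intro U hU hf hx hy hl
    exact h6 U hU (fun u hu => hf u hu) ⟨mem_norm.2 hx, mem_norm.2 hy,
      fun z hz => mem_norm.2 (hl z hz)⟩

/-- a move -/
structure IsMove (n : ℕ) (F : X × G × G × List G → X × G × G × List G) : Prop where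
  fst : ∀ w, (F w).1 = w.1
  mem : ∀ w : X × G × G × List G, w.2.2.2.length = n → ∀ H : Subgroup G, Mem H (F w) ↔ Mem H w
  rel : ∀ w : X × G × G × List G, w.2.2.2.length = n → ∀ g : G, Rel g w → Rel g (F w)
  fa : ∀ w : X × G × G × List G, w.2.2.2.length = n → ∀ Cs : List (Set G), (∀ K ∈ Cs, Cj K) →
    List.Forall₂ (fun z K => z ∈ K) w.2.2.2 Cs →
      List.Forall₂ (fun z K => z ∈ K) (F w).2.2.2 Cs
  inj : ∀ w w' : X × G × G × List G, w.2.2.2.length = n → w'.2.2.2.length = n → F w = F w' →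
    w = w'
  com : ∀ (r : G) w, F (cj r w) = cj r (F w)

theorem IsMove.inOm {F : X × G × G × List G → X × G × G × List G} (hF : IsMove Cs.length F)
    (hCs : ∀ K ∈ Cs, Cj K) {w : X × G × G × List G} (h : InOmL R g Cs w) :
    InOmL R g Cs (F w) := by
  have hl : w.2.2.2.length = Cs.length := h.ml.length_eq
  rw [inOmL_iff] at h ⊢
  obtain ⟨h1, h2, h3, h4⟩ := h
  refine ⟨?_, hF.fa w hl Cs hCs h2, hF.rel w hl g h3, ?_⟩
  · rw [hF.fst, hF.mem w hl]
    exact h1
  · intro U hU hf hm
    rw [hF.fst] at hf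
    rw [hF.mem w hl] at hm
    exact h4 U hU hf hm

variable [Finite X]

/-- the permutation of a move -/
def pm {F : X × G × G × List G → X × G × G × List G} (hF : IsMove Cs.length F)
    (hCs : ∀ K ∈ Cs, Cj K) : Equiv.Perm (Om (X := X) R g Cs) :=
  Equiv.ofBijective (fun w => ⟨F w.1, hF.inOm hCs w.2⟩) (Finite.injective_iff_bijective.1
    (fun w w' e => Subtype.ext (hF.inj _ _ w.2.ml.length_eq w'.2.ml.length_eq
      (congrArg Subtype.val e))))

theorem pm_val {F : X × G × G × List G → X × G × G × List G} (hF : IsMove Cs.length F)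
    (hCs : ∀ K ∈ Cs, Cj K) (w : Om (X := X) R g Cs) : (pm hF hCs w).1 = F w.1 := rfl

theorem fa_app {p q : List G} {Cs : List (Set G)}
    (h : List.Forall₂ (fun z K => z ∈ K) (p ++ q) Cs) :
    ∃ Cp Cq, Cs = Cp ++ Cq ∧ List.Forall₂ (fun z K => z ∈ K) p Cp ∧
      List.Forall₂ (fun z K => z ∈ K) q Cq := by
  induction p generalizing Cs with
  | nil => exact ⟨[], Cs, rfl, List.Forall₂.nil, h⟩
  | cons a p ih =>
    cases h with
    | cons h1 h2 =>
      obtain ⟨Cp, Cq, rfl, h3, h4⟩ := ih h2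
      exact ⟨_ :: Cp, Cq, rfl, List.Forall₂.cons h1 h3, h4⟩

theorem app_fa {p q : List G} {Cp Cq : List (Set G)}
    (h : List.Forall₂ (fun z K => z ∈ K) p Cp) (h' : List.Forall₂ (fun z K => z ∈ K) q Cq) :
    List.Forall₂ (fun z K => z ∈ K) (p ++ q) (Cp ++ Cq) := by
  induction h with
  | nil => exact h'
  | cons h1 _ ih => exact List.Forall₂.cons h1 ih

theorem fa_cl {r : G} {q : List G} {Cs : List (Set G)} (hCs : ∀ K ∈ Cs, Cj K)
    (h : List.Forall₂ (fun z K => z ∈ K) q Cs) :
    List.Forall₂ (fun z K => z ∈ K) (H98BT.cl r q) Cs := H24.cl_forall hCs r h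

theorem isMove_mvA {n i : ℕ} (hi : i ≤ n) : IsMove (X := X) (G := G) n (mvA i) := by
  refine ⟨fun w => rfl, ?_, ?_, ?_, ?_, ?_⟩
  · intro w hw H
    exact Mem_mvA (by rw [hw]; exact hi)
  · intro w hw g h
    exact rel_mvA (by rw [hw]; exact hi) h
  · intro w hw Cs hCs h
    obtain ⟨s, x, y, l⟩ := w
    obtain ⟨p, q, hl, hp⟩ := exists_split l (i := i) (by rw [show l.length = n from hw]; exact hi)
    subst hl
    subst hp
    rw [mvA_split]
    obtain ⟨Cp, Cq, rfl, h3, h4⟩ := fa_app h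
    exact app_fa h3 (fa_cl (fun K hK => hCs K (List.mem_append_right _ hK)) h4)
  · intro w w' hw hw' h
    exact mvA_inj (by rw [hw]; exact hi) (by rw [hw']; exact hi) h
  · intro r w
    exact cj_mvA r i w

theorem isMove_mvB {n : ℕ} : IsMove (X := X) (G := G) n mvB := by
  refine ⟨fun w => rfl, ?_, ?_, ?_, ?_, ?_⟩
  · intro w hw H
    exact Mem_mvB
  · intro w hw g h
    exact rel_mvB h
  · intro w hw Cs hCs h
    exact h
  · intro w w' hw hw' h
    exact mvB_inj h
  · intro r w
    exact cj_mvB r w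

theorem isMove_mvT {n i : ℕ} (hi : i ≤ n) : IsMove (X := X) (G := G) n (mvT i) := by
  refine ⟨fun w => rfl, ?_, ?_, ?_, ?_, ?_⟩
  · intro w hw H
    exact Mem_mvT (by rw [hw]; exact hi)
  · intro w hw g h
    exact rel_mvT (by rw [hw]; exact hi) h
  · intro w hw Cs hCs h
    obtain ⟨s, x, y, l⟩ := w
    obtain ⟨p, q, hl, hp⟩ := exists_split l (i := i) (by rw [show l.length = n from hw]; exact hi)
    subst hl
    subst hp
    rw [mvT_split]
    obtain ⟨Cp, Cq, rfl, h3, h4⟩ := fa_app h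
    exact app_fa h3 (fa_cl (fun K hK => hCs K (List.mem_append_right _ hK)) h4)
  · intro w w' hw hw' h
    exact mvT_inj (by rw [hw]; exact hi) (by rw [hw']; exact hi) h
  · intro r w
    exact cj_mvT r i w

theorem isMove_mvC {n i : ℕ} (hi : i < n) : IsMove (X := X) (G := G) n (mvC i) := by
  refine ⟨fun w => rfl, ?_, ?_, ?_, ?_, ?_⟩
  · intro w hw H
    exact Mem_mvC (by rw [hw]; exact hi)
  · intro w hw g h
    exact rel_mvC (by rw [hw]; exact hi) h
  · intro w hw Cs hCs h
    obtain ⟨s, x, y, l⟩ := w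
    obtain ⟨p, z, q, hl, hp⟩ := exists_split' l (i := i)
      (by rw [show l.length = n from hw]; exact hi)
    subst hl
    subst hp
    rw [mvC_split]
    obtain ⟨Cp, Cq, rfl, h3, h4⟩ := fa_app h
    apply app_fa h3
    cases h4 with
    | cons h5 h6 =>
      exact List.Forall₂.cons
        (hCs _ (List.mem_append_right _ List.mem_cons_self) _ _ h5) h6
  · intro w w' hw hw' h
    exact mvC_inj (by rw [hw]; exact hi) (by rw [hw']; exact hi) h
  · intro r w
    exact cj_mvC r i w

end

theorem tl1 (core : CoreStmt) : TL1Stmt := by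
  intro G X A _ _ _ _ _ R g ρ hR Cs hCs j hj
  let act : MulAction R (Om (X := X) R g Cs) := act hR hCs
  have hsm : ∀ (r : R) (w : Om (X := X) R g Cs), (r • w).1 = cjl r.1 w.1 := fun _ _ => rfl
  have hfree : ∀ (r : R) (w : Om (X := X) R g Cs), r • w = w → r = 1 := by
    intro r w h
    exact Subtype.ext (free_cjl w.2 r.2 (congrArg Subtype.val h))
  obtain ⟨k, hk⟩ := exists_equiva (Ω := Om (X := X) R g Cs) ρ fun r w h => by
    rw [hfree r w h, map_one]
  have hlen : ∀ w : Om (X := X) R g Cs, w.1.2.2.2.length = Cs.length := fun w => w.2.ml.length_eq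
  have hcom : ∀ {F : X × G × G × List G → X × G × G × List G} (hF : IsMove Cs.length F),
      Comm R (pm (R := R) (g := g) hF hCs) := fun hF r w => Subtype.ext (hF.com r.1 w.1)
  have t1 : tau R k (pm (R := R) (g := g) (isMove_mvA (X := X) (G := G) le_rfl) hCs) = 1 := by
    rw [← core G X A R g ρ hR Cs hCs k hk]
    congr 1
    apply Equiv.ext
    intro w
    apply Subtype.ext
    rw [pm_val]
    obtain ⟨⟨s, x, y, l⟩, hw⟩ := w
    exact mvA_last s x y l hw.ml.length_eq
  -- all moves have trivial transfer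
  have hbr : ∀ {F : X × G × G × List G → X × G × G × List G} (hF : IsMove Cs.length F),
      (∀ w : X × G × G × List G, w.2.2.2.length = Cs.length → F (mvB (F w)) = mvB (F (mvB w))) →
      tau R k (pm (R := R) (g := g) hF hCs) =
        tau R k (pm (R := R) (g := g) (isMove_mvB (X := X) (G := G)) hCs) := by
    intro F hF h
    apply tau_braid hk (hcom hF) (hcom isMove_mvB)
    apply Equiv.ext
    intro w
    exact Subtype.ext (h w.1 (hlen w))
  have tb : tau R k (pm (R := R) (g := g) (isMove_mvB (X := X) (G := G)) hCs) = 1 := by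
    rw [← hbr (isMove_mvA le_rfl) fun w hw => mvA_braid hw.ge]
    exact t1
  have tA : ∀ {i : ℕ} (hi : i ≤ Cs.length),
      tau R k (pm (R := R) (g := g) (isMove_mvA (X := X) (G := G) hi) hCs) = 1 := by
    intro i hi
    rw [hbr (isMove_mvA hi) fun w hw => mvA_braid (hi.trans hw.ge)]
    exact tb
  have tC : ∀ {i : ℕ} (hi : i < Cs.length),
      tau R k (pm (R := R) (g := g) (isMove_mvC (X := X) (G := G) hi) hCs) = 1 := by
    intro i hi
    rw [hbr (isMove_mvC hi) fun w hw => mvC_braid (hi.trans_le hw.ge)]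
    exact tb
  -- the lantern relation
  have tT : ∀ (m i : ℕ) (hi : i ≤ Cs.length), i + m = Cs.length →
      tau R k (pm (R := R) (g := g) (isMove_mvT (X := X) (G := G) hi) hCs) = 1 := by
    intro m
    induction m with
    | zero =>
      intro i hi him
      have e : pm (R := R) (g := g) (isMove_mvT (X := X) (G := G) hi) hCs = 1 := by
        apply Equiv.ext
        intro w
        apply Subtype.ext
        rw [pm_val]
        have h1 := hlen w
        obtain ⟨⟨s, x, y, l⟩, hw⟩ := w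
        change l.length = Cs.length at h1
        have h2 := mvT_split s x y l []
        rw [List.append_nil, cl_nil, List.append_nil, h1, ← him, add_zero] at h2
        exact h2
      rw [e, tau_one]
    | succ m ih =>
      intro i hi him
      have hi' : i < Cs.length := by omega
      have hi1 : i + 1 ≤ Cs.length := by omega
      have e : pm (R := R) (g := g) (isMove_mvT (X := X) (G := G) hi) hCs *
          (pm (R := R) (g := g) (isMove_mvA (X := X) (G := G) hi1) hCs *
            pm (R := R) (g := g) (isMove_mvC (X := X) (G := G) hi') hCs) =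
          pm (R := R) (g := g) (isMove_mvA (X := X) (G := G) hi) hCs *
            (pm (R := R) (g := g) (isMove_mvA (X := X) (G := G) le_rfl) hCs *
              pm (R := R) (g := g) (isMove_mvT (X := X) (G := G) hi1) hCs) := by
        apply Equiv.ext
        intro w
        apply Subtype.ext
        have h1 := lantern (i := i) (w := w.1) (by rw [hlen w]; exact hi')
        rw [hlen w] at h1
        exact h1
      have h2 := congrArg (tau R k) e
      rw [tau_mul hk (hcom _) ((hcom _).mul (hcom _)), tau_mul hk (hcom _) (hcom _),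
        tau_mul hk (hcom _) ((hcom _).mul (hcom _)), tau_mul hk (hcom _) (hcom _),
        tA hi1, tC hi', tA hi, t1, ih (i + 1) hi1 (by omega)] at h2
      simp only [mul_one] at h2
      exact h2
  -- the permutation `κ = a₁ A₀ b`
  obtain ⟨κ, hκ⟩ : ∃ κ : Equiv.Perm (Om (X := X) R g Cs),
      κ = pm (R := R) (g := g) (isMove_mvA (X := X) (G := G) le_rfl) hCs *
        (pm (R := R) (g := g) (isMove_mvA (X := X) (G := G) (Nat.zero_le _)) hCs *
          pm (R := R) (g := g) (isMove_mvB (X := X) (G := G)) hCs) := ⟨_, rfl⟩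
  have cκ : Comm R κ := by
    rw [hκ]
    exact (hcom _).mul ((hcom _).mul (hcom _))
  have tκ : tau R k κ = 1 := by
    rw [hκ, tau_mul hk (hcom _) ((hcom _).mul (hcom _)), tau_mul hk (hcom _) (hcom _), t1,
      tA (Nat.zero_le _), tb, one_mul, one_mul]
  -- the central permutation `c` : conjugation by `g⁻¹`
  obtain ⟨T, hT⟩ : ∃ T : Equiv.Perm (Om (X := X) R g Cs),
      T = pm (R := R) (g := g) (isMove_mvT (X := X) (G := G) (Nat.zero_le _)) hCs := ⟨_, rfl⟩
  have cT : Comm R T := by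
    rw [hT]
    exact hcom _
  have tT0 : tau R k T = 1 := by
    rw [hT]
    exact tT Cs.length 0 (Nat.zero_le _) (by omega)
  obtain ⟨c, hc⟩ : ∃ c : Equiv.Perm (Om (X := X) R g Cs), c = κ ^ 4 * T⁻¹ := ⟨_, rfl⟩
  have cc : Comm R c := by
    rw [hc]
    exact (cκ.pow 4).mul (H71.Comm.inv cT)
  have hcT : c * T = κ ^ 4 := by rw [hc, inv_mul_cancel_right]
  have tc : tau R k c = 1 := by
    have h1 := congrArg (tau R k) hcT
    rw [tau_mul hk cc cT, tau_pow hk cκ, tκ, one_pow, tT0, mul_one] at h1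
    exact h1
  -- the chain relation
  have hκv : ∀ w : Om (X := X) R g Cs, (κ w).1 = mvF w.1 := by
    intro w
    rw [hκ]
    have h1 := hlen w
    have e : mvF w.1 = mvA w.1.2.2.2.length (mvA 0 (mvB w.1)) := rfl
    rw [e, h1]
    rfl
  have hcv : ∀ w : Om (X := X) R g Cs, (c w).1 = cjl g⁻¹ w.1 := by
    intro w
    obtain ⟨v, hv⟩ := T.surjective w
    have h1 : c w = (κ ^ 4) v := by
      rw [← hcT, ← hv]
      rfl
    have h2 : ((κ ^ 4) v).1 = mvF (mvF (mvF (mvF v.1))) := by
      have e : (κ ^ 4) v = κ (κ (κ (κ v))) := rfl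
      rw [e, hκv, hκv, hκv, hκv]
    have h3 := mvF4 (g := g) (w := v.1) v.2.cm (g_smul v.2)
    have h4 : (T v).1 = mvT 0 v.1 := by
      rw [hT]
      rfl
    rw [h1, h2, h3, ← hv, h4]
    rfl
  -- powers
  have hpow : ∀ (i : ℕ) (w : Om (X := X) R g Cs), ((c ^ i) w).1 = cjl (g ^ i)⁻¹ w.1 := by
    intro i
    induction i with
    | zero =>
      intro w
      rw [pow_zero, pow_zero, inv_one, cjl_one]
      rfl
    | succ i ih =>
      intro w
      rw [pow_succ', Equiv.Perm.mul_apply, hcv, ih, ← cjl_mul, pow_succ, mul_inv_rev]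
  obtain ⟨r₀, hr₀⟩ : ∃ r₀ : R, r₀ = (⟨g ^ j, hj⟩ : R)⁻¹ := ⟨_, rfl⟩
  have hθ : ∀ w : Om (X := X) R g Cs, (c ^ j) w = r₀ • w := by
    intro w
    apply Subtype.ext
    rw [hpow, hsm, hr₀]
    rfl
  have h5 := tau_smul hk (cc.pow j) hθ
  rw [tau_pow hk cc, tc, one_pow] at h5
  have h6 : orderOf (ρ r₀) ∣ Nat.card (MulAction.orbitRel.Quotient R (Om (X := X) R g Cs)) :=
    orderOf_dvd_of_pow_eq_one h5.symm
  have hord : orderOf (ρ r₀) = orderOf (ρ ⟨g ^ j, hj⟩) := by
    rw [hr₀, map_inv, orderOf_inv]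
  have h9 : {w : X × G × G × List G | InOmL R g Cs w}.ncard = Nat.card (Om (X := X) R g Cs) :=
    rfl
  rw [h9, card_free hfree, mul_comm (Nat.card R), ← hord]
  exact Nat.mul_dvd_mul_right h6 _

end Pool.Agent.PP.ML.H98
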